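import Mathlib

/-!
# Project OP, piece FIN: the computation (Kronecker substitution)
-/

namespace Pool.Agent.K1H8.OP

/-- `X * 2^e` modulo `2^K`. -/
def shl (K X e : ℕ) : ℕ := (X &&& (2 ^ (K - e) - 1)) <<< e

/-- `X - Y` modulo `2^K`. -/
def sb (K X Y : ℕ) : ℕ := (X + (2 ^ K - Y)) &&& (2 ^ K - 1)

/-- multiplication by `1 - B^i`, `B = 2^s` -/
def mo (K s X i : ℕ) : ℕ := sb K X (shl K X (s * i))

/-- The first numerator. -/
def nA (K s m : ℕ) : ℕ := Nat.rec 1 (fun m H =>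
  (mo K s H (m + 1) + (3 ^ (m + 1)) <<< (s * ((m + 1) * (m + 2) / 2))) &&& (2 ^ K - 1)) m

/-- The first denominator. -/
def dA (K s m : ℕ) : ℕ := Nat.rec 1 (fun m H => mo K s H (m + 1)) m

/-- The second numerator. -/
def nB (K s m : ℕ) : ℕ := Nat.rec 1 (fun m H =>
  bif Nat.beq ((m + 1) % 2) 0 then
    (mo K s H (2 * (m + 1)) + 1 <<< (s * ((m + 1) * (m + 1)))) &&& (2 ^ K - 1)
  else sb K (mo K s H (2 * (m + 1))) (1 <<< (s * ((m + 1) * (m + 1))) &&& (2 ^ K - 1))) m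

/-- The second denominator. -/
def dB (K s m : ℕ) : ℕ := Nat.rec 1 (fun m H => mo K s H (2 * (m + 1))) m

/-- Newton iteration for the inverse. -/
def inv (K D k : ℕ) : ℕ :=
  Nat.rec 1 (fun _ y => (y * (sb K 2 ((D * y) &&& (2 ^ K - 1)))) &&& (2 ^ K - 1)) k

/-- The check of the digits. -/
def chk (s f : ℕ) : ℕ → ℕ → Bool :=
  Nat.rec (fun _ X => Nat.blt 0 X && Nat.blt X (2 ^ (s - 1))) (fun _ r c X =>
    bif Nat.ble c 1 then (Nat.blt 0 X && Nat.blt X (2 ^ (s - 1))) else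
      (r (c / 2) (X &&& (2 ^ (s * (c / 2)) - 1)) && r (c - c / 2) (X >>> (s * (c / 2))))) f

/-- The offset. -/
def off (s m : ℕ) : ℕ := Nat.rec 0 (fun m X => X + (2 ^ 20) <<< (s * m)) m

/-- The denominator. -/
def DD (K s M M' : ℕ) : ℕ := (dA K s M * dB K s M') &&& (2 ^ K - 1)

/-- The numerator. -/
def NN (K s M M' : ℕ) : ℕ := (nA K s M * nB K s M') &&& (2 ^ K - 1)

/-- The quotient. -/
def FF (K s M M' k : ℕ) : ℕ := (NN K s M M' * inv K (DD K s M M') k) &&& (2 ^ K - 1)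

/-- The complete check. -/
def allchk (K s n M M' k f : ℕ) : Bool :=
  Nat.beq ((FF K s M M' k * DD K s M M') &&& (2 ^ K - 1)) (NN K s M M') &&
    chk s f n ((FF K s M M' k + off s 28) &&& (2 ^ K - 1))

theorem allchk_true : allchk 8830976 704 12544 157 111 14 14 = true := by
  decide +kernel

end Pool.Agent.K1H8.OP
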