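import Pool.Agent.K1H8.OP.Gen

/-!
# Project OP, piece FIN: the finite check
-/

namespace Pool.Agent.K1H8.OP

open Polynomial K1H72.OP

theorem pol_eval (x : ℤ) (N : ℕ) : (Pol N).eval x = val x N := by
  unfold Pol val
  rw [eval_mul, eval_prod, eval_prod]
  congr 1
  · refine Finset.prod_congr rfl fun j _ => ?_
    simp
  · refine Finset.prod_congr rfl fun j _ => ?_
    simp

theorem pol_dvd (p : ℤ[X]) (x : ℤ) (n : ℕ) :
    x ^ n ∣ p.eval x - ∑ i ∈ Finset.range n, p.coeff i * x ^ i := by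
  have h1 : p.eval x = ∑ i ∈ Finset.range (n + (p.natDegree + 1)), p.coeff i * x ^ i :=
    Polynomial.eval_eq_sum_range' (by omega) x
  rw [h1, Finset.sum_range_add, add_sub_cancel_left]
  refine Finset.dvd_sum fun i _ => ?_
  rw [pow_add]
  exact Dvd.dvd.mul_left (Dvd.intro _ rfl) _

theorem exp448 : Real.exp 448 ≤ (2 : ℝ) ^ 650 := by
  have h1 : Real.exp 448 = Real.exp 1 ^ 448 := by
    rw [← Real.exp_nat_mul]
    norm_num
  rw [h1]
  have h2 : Real.exp 1 ≤ 2.7183 := by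
    have := Real.exp_one_lt_d9
    linarith
  refine (pow_le_pow_left₀ (Real.exp_pos _).le h2 448).trans ?_
  have h3 : (2.7183 : ℝ) ^ 7 ≤ 1100 := by norm_num
  calc (2.7183 : ℝ) ^ 448 = ((2.7183 : ℝ) ^ 7) ^ 64 := by rw [← pow_mul]
    _ ≤ 1100 ^ 64 := pow_le_pow_left₀ (by norm_num) h3 64
    _ ≤ 1024 ^ 65 := by norm_num
    _ = (2 ^ 10) ^ 65 := by norm_num
    _ = 2 ^ 650 := by rw [← pow_mul]

theorem coeff_bound (hb : S_BD) (N n : ℕ) (hn : n ≤ 12544) :
    |(Pol N).coeff n| ≤ (2 : ℤ) ^ 650 := by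
  have h1 := hb n N (56 / 57) (by norm_num) (by norm_num)
  have h2 : (4 * (56 / 57 : ℝ) / (1 - 56 / 57)) = 224 := by norm_num
  rw [h2] at h1
  have h3 : (1 : ℝ) = (56 / 57 : ℝ) ^ n * (57 / 56 : ℝ) ^ n := by
    rw [← mul_pow]
    norm_num
  have h4 : (57 / 56 : ℝ) ^ n ≤ Real.exp 224 := by
    have h5 : (57 / 56 : ℝ) ≤ Real.exp (1 / 56) := by
      have := Real.add_one_le_exp (1 / 56 : ℝ)
      linarith
    refine (pow_le_pow_left₀ (by norm_num) h5 n).trans ?_
    rw [← Real.exp_nat_mul, Real.exp_le_exp]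
    have : (n : ℝ) ≤ 12544 := by exact_mod_cast hn
    linarith
  have h6 : |((Pol N).coeff n : ℝ)| ≤ Real.exp 448 := by
    calc |((Pol N).coeff n : ℝ)| = |((Pol N).coeff n : ℝ)| * (56 / 57 : ℝ) ^ n *
          (57 / 56 : ℝ) ^ n := by rw [mul_assoc, ← h3, mul_one]
      _ ≤ Real.exp 224 * Real.exp 224 :=
          mul_le_mul h1 h4 (by positivity) (Real.exp_pos _).le
      _ = Real.exp 448 := by rw [← Real.exp_add]; norm_num
  have h7 := h6.trans exp448
  exact_mod_cast h7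

theorem t_FIN (h : S_GF) (hb : S_BD) : S_FIN := by
  intro n h27 hn
  have h1 := pos_of_check (s := 704) (n := 12544) (by norm_num) (by norm_num) (by norm_num)
    (M := 157) (by rw [← T_eq]; norm_num) (M' := 111) (by norm_num) (f := 14) (by norm_num)
    allchk_true (fun i => (Pol 12544).coeff i) (by
      intro i hi
      have h2 := coeff_bound hb 12544 i hi.le
      have h4 : (2 : ℤ) ^ 20 ≤ 2 ^ 650 := pow_le_pow_right₀ (by norm_num) (by norm_num)
      have h5 : (2 : ℤ) ^ 651 ≤ 2 ^ (704 - 1) := pow_le_pow_right₀ (by norm_num) (by norm_num)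
      have h6 : (2 : ℤ) ^ 651 = 2 ^ 650 + 2 ^ 650 := by
        rw [show (651 : ℕ) = 650 + 1 by norm_num, pow_succ, mul_two]
      calc |(Pol 12544).coeff i| + 2 ^ 20 ≤ 2 ^ 650 + 2 ^ 650 := add_le_add h2 h4
        _ = 2 ^ 651 := h6.symm
        _ ≤ 2 ^ (704 - 1) := h5) (by
      have h3 := pol_dvd (Pol 12544) (2 ^ 704) 12544
      rw [pol_eval] at h3
      exact h3) n (by omega) h27
  rw [h n 12544 (by omega)]
  exact h1

end Pool.Agent.K1H8.OP
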