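import Pool.Agent.K1H8.OP.Cmp
import Pool.Agent.K1H72.OP.Stm

/-!
# Project OP, piece FIN: correctness of the computation
-/

namespace Pool.Agent.K1H8.OP

/-! ### Euler's identities, with denominators cleared -/

section ring

variable {R : Type} [CommRing R]

/-- `m (m + 1) / 2` -/
def T : ℕ → ℕ
  | 0 => 0
  | m + 1 => T m + (m + 1)

theorem T_eq (m : ℕ) : m * (m + 1) / 2 = T m := by
  induction m with
  | zero => rfl
  | succ m ih =>
    have : (m + 1) * (m + 1 + 1) = m * (m + 1) + 2 * (m + 1) := by ring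
    rw [this, Nat.add_mul_div_left _ _ (by norm_num), ih]
    rfl

/-- The numerator. -/
def H (z y : R) : ℕ → R
  | 0 => 1
  | m + 1 => H z y m * (1 - y ^ (m + 1)) + z ^ (m + 1) * y ^ T m

/-- The denominator. -/
def G (y : R) : ℕ → R
  | 0 => 1
  | m + 1 => G y m * (1 - y ^ (m + 1))

theorem H_fun (z y : R) (m : ℕ) :
    (1 + z) * H (z * y) y m = H z y m + z ^ (m + 1) * y ^ T m := by
  induction m with
  | zero => simp [H, T]
  | succ m ih =>
    have h1 : (1 + z) * H (z * y) y (m + 1) = ((1 + z) * H (z * y) y m) * (1 - y ^ (m + 1)) +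
        (1 + z) * ((z * y) ^ (m + 1) * y ^ T m) := by
      simp only [H]; ring
    rw [h1, ih]
    simp only [H, T, pow_add, mul_pow]
    ring

theorem H_dvd (z y : R) (m : ℕ) : z ∣ H z y m - G y m := by
  induction m with
  | zero => simp [H, G]
  | succ m ih =>
    have : H z y (m + 1) - G y (m + 1) = (H z y m - G y m) * (1 - y ^ (m + 1)) +
        z * (z ^ m * y ^ T m) := by
      simp only [H, G]; ring
    rw [this]
    exact dvd_add (ih.mul_right _) (Dvd.intro _ rfl)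

theorem euler (w z y : R) (M L : ℕ) (h1 : w ∣ z ^ (M + 1) * y ^ T M) (h2 : w ∣ z * y ^ L) :
    w ∣ H z y M - (∏ j ∈ Finset.range L, (1 + z * y ^ j)) * G y M := by
  have key : ∀ l, w ∣ H z y M - (∏ j ∈ Finset.range l, (1 + z * y ^ j)) * H (z * y ^ l) y M := by
    intro l
    induction l with
    | zero => simp
    | succ l ih =>
      rw [Finset.prod_range_succ]
      have h3 := H_fun (z * y ^ l) y M
      have h4 : w ∣ (z * y ^ l) ^ (M + 1) * y ^ T M := by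
        have : (z * y ^ l) ^ (M + 1) * y ^ T M = (z ^ (M + 1) * y ^ T M) * (y ^ l) ^ (M + 1) := by
          rw [mul_pow]; ring
        rw [this]
        exact h1.mul_right _
      have h5 : H z y M - (∏ j ∈ Finset.range l, (1 + z * y ^ j)) * (1 + z * y ^ l) *
          H (z * y ^ (l + 1)) y M =
          (H z y M - (∏ j ∈ Finset.range l, (1 + z * y ^ j)) * H (z * y ^ l) y M) -
            (∏ j ∈ Finset.range l, (1 + z * y ^ j)) * ((z * y ^ l) ^ (M + 1) * y ^ T M) := by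
        rw [pow_succ y l, ← mul_assoc z (y ^ l) y]
        linear_combination (-(∏ j ∈ Finset.range l, (1 + z * y ^ j))) * h3
      rw [h5]
      exact dvd_sub ih (h4.mul_left _)
  have h6 := key L
  have h7 : w ∣ H (z * y ^ L) y M - G y M := h2.trans (H_dvd _ _ _)
  have h8 : H z y M - (∏ j ∈ Finset.range L, (1 + z * y ^ j)) * G y M =
      (H z y M - (∏ j ∈ Finset.range L, (1 + z * y ^ j)) * H (z * y ^ L) y M) +
        (∏ j ∈ Finset.range L, (1 + z * y ^ j)) * (H (z * y ^ L) y M - G y M) := by ring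
  rw [h8]
  exact dvd_add h6 (h7.mul_left _)

theorem G_dvd (w y : R) (h : w ∣ y) (m : ℕ) : w ∣ G y m - 1 := by
  induction m with
  | zero => simp [G]
  | succ m ih =>
    have : G y (m + 1) - 1 = (G y m - 1) * (1 - y ^ (m + 1)) - y * y ^ m := by
      simp only [G]; ring
    rw [this]
    exact dvd_sub (ih.mul_right _) (h.mul_right _)

end ring

/-! ### The operations -/

theorem and_mod (K X : ℕ) : X &&& (2 ^ K - 1) = X % 2 ^ K := Nat.and_two_pow_sub_one_eq_mod X K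

theorem md_cong (K X : ℕ) : (((X &&& (2 ^ K - 1) : ℕ)) : ℤ) ≡ (X : ℤ) [ZMOD 2 ^ K] := by
  rw [and_mod]
  push_cast
  exact Int.mod_modEq _ _

theorem md_lt (K X : ℕ) : X &&& (2 ^ K - 1) < 2 ^ K := by
  rw [and_mod]
  exact Nat.mod_lt _ (by positivity)

theorem shl_lt (K X e : ℕ) : shl K X e < 2 ^ K ∨ shl K X e = 0 := by
  unfold shl
  rw [and_mod, Nat.shiftLeft_eq]
  rcases le_or_gt e K with h | h
  · left
    have h1 : X % 2 ^ (K - e) < 2 ^ (K - e) := Nat.mod_lt _ (by positivity)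
    have h2 : 2 ^ K = 2 ^ (K - e) * 2 ^ e := by rw [← pow_add, Nat.sub_add_cancel h]
    rw [h2]
    exact Nat.mul_lt_mul_of_pos_right h1 (by positivity)
  · right
    rw [Nat.sub_eq_zero_of_le h.le, pow_zero, Nat.mod_one, zero_mul]

theorem shl_le (K X e : ℕ) : shl K X e ≤ 2 ^ K := by
  rcases shl_lt K X e with h | h
  · exact h.le
  · rw [h]; exact Nat.zero_le _

theorem shl_cong (K X e : ℕ) : ((shl K X e : ℕ) : ℤ) ≡ (X : ℤ) * 2 ^ e [ZMOD 2 ^ K] := by
  unfold shl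
  rw [and_mod, Nat.shiftLeft_eq]
  rcases le_or_gt e K with h | h
  · have h1 := Nat.div_add_mod X (2 ^ (K - e))
    have h2 : (2 : ℤ) ^ K = 2 ^ (K - e) * 2 ^ e := by rw [← pow_add, Nat.sub_add_cancel h]
    have h3 : (X : ℤ) = 2 ^ (K - e) * ((X / 2 ^ (K - e) : ℕ) : ℤ) + ((X % 2 ^ (K - e) : ℕ) : ℤ) := by
      exact_mod_cast h1.symm
    rw [Int.modEq_iff_dvd]
    refine ⟨((X / 2 ^ (K - e) : ℕ) : ℤ), ?_⟩
    rw [h2, Nat.cast_mul]
    conv_lhs => rw [h3]
    push_cast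
    ring
  · rw [Nat.sub_eq_zero_of_le h.le, pow_zero, Nat.mod_one, zero_mul, Int.modEq_iff_dvd]
    refine Dvd.dvd.trans (pow_dvd_pow 2 h.le) ?_
    simp

theorem sb_cong (K X Y : ℕ) (h : Y ≤ 2 ^ K) :
    ((sb K X Y : ℕ) : ℤ) ≡ (X : ℤ) - Y [ZMOD 2 ^ K] := by
  unfold sb
  refine (md_cong K _).trans ?_
  rw [Nat.cast_add, Nat.cast_sub h, Int.modEq_iff_dvd]
  refine ⟨-1, ?_⟩
  push_cast
  ring

theorem mo_cong (K s X i : ℕ) (u : ℤ) (h : (X : ℤ) ≡ u [ZMOD 2 ^ K]) :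
    ((mo K s X i : ℕ) : ℤ) ≡ u * (1 - (2 ^ s) ^ i) [ZMOD 2 ^ K] := by
  unfold mo
  refine (sb_cong K _ _ (shl_le _ _ _)).trans ?_
  have h1 := shl_cong K X (s * i)
  have h2 : (X : ℤ) - (X : ℤ) * 2 ^ (s * i) ≡ u - u * 2 ^ (s * i) [ZMOD 2 ^ K] :=
    h.sub (h.mul_right _)
  refine ((Int.ModEq.refl _).sub h1).trans (h2.trans ?_)
  rw [pow_mul]
  have : u - u * (2 ^ s) ^ i = u * (1 - (2 ^ s) ^ i) := by ring
  rw [this]

theorem nA_succ (K s m : ℕ) : nA K s (m + 1) = (mo K s (nA K s m) (m + 1) +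
    (3 ^ (m + 1)) <<< (s * ((m + 1) * (m + 2) / 2))) &&& (2 ^ K - 1) := rfl

theorem nA_cong (K s m : ℕ) :
    ((nA K s m : ℕ) : ℤ) ≡ H (3 * 2 ^ s) (2 ^ s) m [ZMOD 2 ^ K] := by
  induction m with
  | zero => exact Int.ModEq.refl _
  | succ m ih =>
    rw [nA_succ]
    refine (md_cong K _).trans ?_
    rw [Nat.cast_add]
    have h1 := mo_cong K s (nA K s m) (m + 1) _ ih
    refine (h1.add_right _).trans ?_
    have h2 : (((3 ^ (m + 1)) <<< (s * ((m + 1) * (m + 2) / 2)) : ℕ) : ℤ) =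
        (3 * 2 ^ s) ^ (m + 1) * (2 ^ s) ^ T m := by
      rw [Nat.shiftLeft_eq]
      have h3 : (m + 1) * (m + 2) / 2 = T m + (m + 1) := T_eq (m + 1)
      rw [h3]
      push_cast
      rw [mul_pow, pow_mul, pow_add]
      ring
    rw [h2]
    rfl

theorem dA_succ (K s m : ℕ) : dA K s (m + 1) = mo K s (dA K s m) (m + 1) := rfl

theorem dA_cong (K s m : ℕ) : ((dA K s m : ℕ) : ℤ) ≡ G (2 ^ s) m [ZMOD 2 ^ K] := by
  induction m with
  | zero => exact Int.ModEq.refl _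
  | succ m ih =>
    rw [dA_succ]
    exact mo_cong K s (dA K s m) (m + 1) _ ih

theorem dB_succ (K s m : ℕ) : dB K s (m + 1) = mo K s (dB K s m) (2 * (m + 1)) := rfl

theorem dB_cong (K s m : ℕ) : ((dB K s m : ℕ) : ℤ) ≡ G ((2 ^ s) ^ 2) m [ZMOD 2 ^ K] := by
  induction m with
  | zero => exact Int.ModEq.refl _
  | succ m ih =>
    rw [dB_succ]
    have h := mo_cong K s (dB K s m) (2 * (m + 1)) _ ih
    rw [pow_mul ((2 : ℤ) ^ s) 2 (m + 1)] at h
    exact h

theorem nB_succ (K s m : ℕ) : nB K s (m + 1) =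
    bif Nat.beq ((m + 1) % 2) 0 then
      (mo K s (nB K s m) (2 * (m + 1)) + 1 <<< (s * ((m + 1) * (m + 1)))) &&& (2 ^ K - 1)
    else sb K (mo K s (nB K s m) (2 * (m + 1)))
      (1 <<< (s * ((m + 1) * (m + 1))) &&& (2 ^ K - 1)) := rfl

theorem twoT (m : ℕ) : 2 * T m = m * (m + 1) := by
  induction m with
  | zero => rfl
  | succ m ih =>
    have : T (m + 1) = T m + (m + 1) := rfl
    rw [this, mul_add, ih]
    ring

theorem nB_cong (K s m : ℕ) :
    ((nB K s m : ℕ) : ℤ) ≡ H (-(2 ^ s)) ((2 ^ s) ^ 2) m [ZMOD 2 ^ K] := by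
  induction m with
  | zero => exact Int.ModEq.refl _
  | succ m ih =>
    rw [nB_succ]
    have h1 := mo_cong K s (nB K s m) (2 * (m + 1)) _ ih
    rw [pow_mul ((2 : ℤ) ^ s) 2 (m + 1)] at h1
    have h2 : ((1 <<< (s * ((m + 1) * (m + 1))) : ℕ) : ℤ) = (2 ^ s) ^ (m + 1) *
        ((2 ^ s) ^ 2) ^ T m := by
      rw [Nat.shiftLeft_eq, one_mul, ← pow_mul ((2 : ℤ) ^ s), twoT, ← pow_add, ← pow_mul]
      push_cast
      congr 1
      ring
    have h3 : H (-(2 ^ s : ℤ)) ((2 ^ s) ^ 2) (m + 1) = H (-(2 ^ s)) ((2 ^ s) ^ 2) m *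
        (1 - ((2 ^ s) ^ 2) ^ (m + 1)) + (-(2 ^ s)) ^ (m + 1) * ((2 ^ s) ^ 2) ^ T m := rfl
    rw [h3]
    rcases Nat.even_or_odd (m + 1) with he | ho
    · have hb : Nat.beq ((m + 1) % 2) 0 = true := by
        rw [Nat.even_iff.1 he]; rfl
      rw [hb, cond_true]
      refine (md_cong K _).trans ?_
      rw [Nat.cast_add, h2, he.neg_pow]
      exact h1.add_right _
    · have hb : Nat.beq ((m + 1) % 2) 0 = false := by
        rw [Nat.odd_iff.1 ho]; rfl
      rw [hb, cond_false]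
      refine (sb_cong K _ _ (md_lt _ _).le).trans ?_
      have h4 := md_cong K (1 <<< (s * ((m + 1) * (m + 1))))
      refine (h1.sub h4).trans ?_
      rw [h2, ho.neg_pow]
      have : H (-(2 ^ s : ℤ)) ((2 ^ s) ^ 2) m * (1 - ((2 ^ s) ^ 2) ^ (m + 1)) -
          (2 ^ s) ^ (m + 1) * ((2 ^ s) ^ 2) ^ T m = H (-(2 ^ s : ℤ)) ((2 ^ s) ^ 2) m *
          (1 - ((2 ^ s) ^ 2) ^ (m + 1)) + -(2 ^ s) ^ (m + 1) * ((2 ^ s) ^ 2) ^ T m := by ring
      rw [this]

/-! ### The value of the product -/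

/-- The product, evaluated at `x`. -/
def val (x : ℤ) (N : ℕ) : ℤ :=
  (∏ j ∈ Finset.range N, (1 + 3 * x ^ (j + 1))) * ∏ j ∈ Finset.range N, (1 - x ^ (2 * j + 1))

theorem val_cong {K s n M M' k : ℕ} (hs : 1 ≤ s) (hn : 1 ≤ n) (hK : K = s * n) (hM : n ≤ T (M + 1))
    (hM' : n ≤ (M' + 1) * (M' + 1))
    (hc : (FF K s M M' k * DD K s M M') &&& (2 ^ K - 1) = NN K s M M') :
    val (2 ^ s) n ≡ (FF K s M M' k : ℤ) [ZMOD 2 ^ K] := by
  have hx : (2 : ℤ) ^ K = (2 ^ s) ^ n := by rw [hK, pow_mul]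
  -- the first product
  have hA := euler ((2 : ℤ) ^ K) (3 * 2 ^ s) (2 ^ s) M n (by
      rw [hx, mul_pow, mul_assoc, ← pow_add]
      refine Dvd.dvd.mul_left (pow_dvd_pow _ ?_) _
      have : T (M + 1) = T M + (M + 1) := rfl
      omega) (by
      rw [hx, mul_assoc]
      exact Dvd.dvd.mul_left (Dvd.dvd.mul_left dvd_rfl _) _)
  have hB := euler ((2 : ℤ) ^ K) (-(2 ^ s)) ((2 ^ s) ^ 2) M' n (by
      rw [hx, neg_pow, mul_assoc, ← pow_mul ((2 : ℤ) ^ s), twoT, ← pow_add]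
      refine Dvd.dvd.mul_left (pow_dvd_pow _ ?_) _
      calc n ≤ (M' + 1) * (M' + 1) := hM'
        _ = M' + 1 + M' * (M' + 1) := by ring) (by
      rw [hx, neg_mul, ← pow_mul ((2 : ℤ) ^ s)]
      rw [dvd_neg]
      refine Dvd.dvd.mul_left (pow_dvd_pow _ ?_) _
      omega)
  have e1 : (∏ j ∈ Finset.range n, (1 + 3 * (2 : ℤ) ^ s * (2 ^ s) ^ j)) =
      ∏ j ∈ Finset.range n, (1 + 3 * ((2 : ℤ) ^ s) ^ (j + 1)) :=
    Finset.prod_congr rfl fun j _ => by ring
  have e2 : (∏ j ∈ Finset.range n, (1 + -(2 : ℤ) ^ s * ((2 ^ s) ^ 2) ^ j)) =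
      ∏ j ∈ Finset.range n, (1 - ((2 : ℤ) ^ s) ^ (2 * j + 1)) :=
    Finset.prod_congr rfl fun j _ => by
      rw [← pow_mul ((2 : ℤ) ^ s) 2 j]; ring
  rw [e1] at hA
  rw [e2] at hB
  have hA' := (Int.modEq_iff_dvd.2 hA)
  have hB' := (Int.modEq_iff_dvd.2 hB)
  -- numbers
  have hN : (NN K s M M' : ℤ) ≡ H (3 * 2 ^ s) (2 ^ s) M * H (-(2 ^ s)) ((2 ^ s) ^ 2) M'
      [ZMOD 2 ^ K] := by
    unfold NN
    refine (md_cong K _).trans ?_
    rw [Nat.cast_mul]
    exact (nA_cong K s M).mul (nB_cong K s M')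
  have hD : (DD K s M M' : ℤ) ≡ G (2 ^ s) M * G ((2 ^ s) ^ 2) M' [ZMOD 2 ^ K] := by
    unfold DD
    refine (md_cong K _).trans ?_
    rw [Nat.cast_mul]
    exact (dA_cong K s M).mul (dB_cong K s M')
  have hF : (FF K s M M' k : ℤ) * DD K s M M' ≡ NN K s M M' [ZMOD 2 ^ K] := by
    have := md_cong K (FF K s M M' k * DD K s M M')
    rw [hc, Nat.cast_mul] at this
    exact this.symm
  have hV : val (2 ^ s) n * DD K s M M' ≡ (FF K s M M' k : ℤ) * DD K s M M' [ZMOD 2 ^ K] := by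
    refine Int.ModEq.trans ?_ hF.symm
    refine Int.ModEq.trans (Int.ModEq.mul_left _ hD) (Int.ModEq.trans ?_ hN.symm)
    have h3 := hA'.mul hB'
    unfold val
    refine Int.ModEq.trans ?_ h3
    have : ∀ a b c d : ℤ, a * b * (c * d) = a * c * (b * d) := fun a b c d => by ring
    rw [this]
  -- the denominator is odd
  have hodd : IsCoprime ((2 : ℤ) ^ K) (DD K s M M' : ℤ) := by
    have h1 : (2 : ℤ) ∣ G (2 ^ s) M - 1 := (dvd_pow_self 2 (by omega)).trans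
      (G_dvd _ _ dvd_rfl M)
    have h2 : (2 : ℤ) ∣ G ((2 ^ s) ^ 2) M' - 1 := (dvd_pow_self 2 (by omega)).trans
      (G_dvd ((2 : ℤ) ^ s) _ (dvd_pow_self _ (by norm_num)) M')
    have h3 : (2 : ℤ) ∣ G (2 ^ s) M * G ((2 ^ s) ^ 2) M' - DD K s M M' :=
      (dvd_pow_self 2 (by
        rw [hK]
        have := Nat.mul_pos hs hn
        omega)).trans (Int.modEq_iff_dvd.1 hD)
    have h4 : Odd (DD K s M M' : ℤ) := by
      obtain ⟨a1, ha1⟩ := h1
      obtain ⟨a2, ha2⟩ := h2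
      obtain ⟨a3, ha3⟩ := h3
      have e1 : G ((2 : ℤ) ^ s) M = 1 + 2 * a1 := by linarith
      have e2 : G (((2 : ℤ) ^ s) ^ 2) M' = 1 + 2 * a2 := by linarith
      rw [e1, e2] at ha3
      exact ⟨a1 + a2 + 2 * a1 * a2 - a3, by linear_combination -ha3⟩
    refine IsCoprime.pow_left ?_
    obtain ⟨m, hm⟩ := h4
    exact ⟨-m, 1, by rw [hm]; ring⟩
  have h5 := Int.modEq_iff_dvd.1 hV
  rw [← sub_mul] at h5
  exact Int.modEq_iff_dvd.2 (hodd.dvd_of_dvd_mul_right h5)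

/-! ### Digits -/

theorem chk_succ (s f c X : ℕ) : chk s (f + 1) c X =
    bif Nat.ble c 1 then (Nat.blt 0 X && Nat.blt X (2 ^ (s - 1))) else
      (chk s f (c / 2) (X &&& (2 ^ (s * (c / 2)) - 1)) &&
        chk s f (c - c / 2) (X >>> (s * (c / 2)))) := rfl

theorem leaf {s X : ℕ} (h : (Nat.blt 0 X && Nat.blt X (2 ^ (s - 1))) = true) {c : ℕ} (hc : c ≤ 1)
    (i : ℕ) (hi : i < c) :
    0 < X / 2 ^ (s * i) % 2 ^ s ∧ X / 2 ^ (s * i) % 2 ^ s < 2 ^ (s - 1) := by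
  have hi0 : i = 0 := by omega
  subst hi0
  rw [Bool.and_eq_true] at h
  obtain ⟨h1, h2⟩ := h
  have h1' : 0 < X := Nat.blt_eq.mp h1
  have h2' : X < 2 ^ (s - 1) := Nat.blt_eq.mp h2
  have h3 : X < 2 ^ s := h2'.trans_le (Nat.pow_le_pow_right (by norm_num) (Nat.sub_le _ _))
  rw [mul_zero, pow_zero, Nat.div_one, Nat.mod_eq_of_lt h3]
  exact ⟨h1', h2'⟩

theorem chk_spec (s f : ℕ) : ∀ c X : ℕ, c ≤ 2 ^ f → chk s f c X = true → ∀ i < c,
    0 < X / 2 ^ (s * i) % 2 ^ s ∧ X / 2 ^ (s * i) % 2 ^ s < 2 ^ (s - 1) := by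
  induction f with
  | zero =>
    intro c X hc h i hi
    exact leaf h (by simpa using hc) i hi
  | succ f ih =>
    intro c X hc h i hi
    rw [chk_succ] at h
    rw [pow_succ] at hc
    rcases Nat.lt_or_ge 1 c with h1 | h1
    · have hb : Nat.ble c 1 = false := by
        rw [← Bool.not_eq_true, Nat.ble_eq]
        omega
      rw [hb, cond_false, Bool.and_eq_true] at h
      obtain ⟨h2, h3⟩ := h
      rcases Nat.lt_or_ge i (c / 2) with h4 | h4
      · have h5 := ih (c / 2) _ (by omega) h2 i h4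
        rw [and_mod] at h5
        have h6 : X % 2 ^ (s * (c / 2)) / 2 ^ (s * i) % 2 ^ s = X / 2 ^ (s * i) % 2 ^ s := by
          have h7 : s * (c / 2) = s * i + (s + s * (c / 2 - i - 1)) := by
            have : c / 2 = i + 1 + (c / 2 - i - 1) := by omega
            conv_lhs => rw [this]
            ring
          rw [h7, pow_add, Nat.mod_mul_right_div_self, pow_add, Nat.mod_mul_right_mod]
        rw [h6] at h5
        exact h5
      · have h5 := ih (c - c / 2) _ (by omega) h3 (i - c / 2) (by omega)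
        rw [Nat.shiftRight_eq_div_pow, Nat.div_div_eq_div_mul, ← pow_add] at h5
        have h6 : s * (c / 2) + s * (i - c / 2) = s * i := by
          rw [← mul_add]
          congr 1
          omega
        rw [h6] at h5
        exact h5
    · have hb : Nat.ble c 1 = true := Nat.ble_eq.mpr h1
      rw [hb, cond_true] at h
      exact leaf h h1 i hi

theorem digits_sum (Y B n : ℕ) :
    ∑ i ∈ Finset.range n, (Y / B ^ i % B) * B ^ i = Y % B ^ n := by
  induction n with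
  | zero => simp [Nat.mod_one]
  | succ n ih =>
    rw [Finset.sum_range_succ, ih, Nat.mod_pow_succ]
    ring

theorem uniq (B : ℤ) (hB : 0 < B) (n : ℕ) : ∀ w : ℕ → ℤ, (∀ i < n, |w i| < B) →
    B ^ n ∣ ∑ i ∈ Finset.range n, w i * B ^ i → ∀ i < n, w i = 0 := by
  induction n with
  | zero => intro w _ _ i hi; omega
  | succ n ih =>
    intro w hw hd
    have h1 : ∑ i ∈ Finset.range (n + 1), w i * B ^ i =
        B * ∑ i ∈ Finset.range n, w (i + 1) * B ^ i + w 0 := by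
      rw [Finset.sum_range_succ', Finset.mul_sum, pow_zero, mul_one]
      congr 1
      refine Finset.sum_congr rfl fun i _ => ?_
      rw [pow_succ]; ring
    rw [h1] at hd
    have h2 : B ∣ w 0 := by
      have h3 : B ∣ B * ∑ i ∈ Finset.range n, w (i + 1) * B ^ i + w 0 :=
        (dvd_pow_self B (by omega)).trans hd
      exact (Int.dvd_add_right (Dvd.intro _ rfl)).1 h3
    have h0 : w 0 = 0 := Int.eq_zero_of_abs_lt_dvd h2 (hw 0 (by omega))
    rw [h0, add_zero, pow_succ, mul_comm (B ^ n) B] at hd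
    have h4 : B ^ n ∣ ∑ i ∈ Finset.range n, w (i + 1) * B ^ i :=
      (mul_dvd_mul_iff_left hB.ne').1 hd
    have h5 := ih (fun i => w (i + 1)) (fun i hi => hw (i + 1) (by omega)) h4
    intro i hi
    rcases i with _ | i
    · exact h0
    · exact h5 i (by omega)

theorem off_eq (s m : ℕ) :
    (off s m : ℤ) = ∑ i ∈ Finset.range m, (2 : ℤ) ^ 20 * (2 ^ s) ^ i := by
  induction m with
  | zero => rfl
  | succ m ih =>
    rw [Finset.sum_range_succ, ← ih]
    have : off s (m + 1) = off s m + (2 ^ 20) <<< (s * m) := rfl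
    rw [this, Nat.shiftLeft_eq, pow_mul]
    push_cast
    ring

/-- The coefficients are positive. -/
theorem pos_of_check {K s n M M' k f : ℕ} (hs : 22 ≤ s) (hn : 28 ≤ n) (hK : K = s * n)
    (hM : n ≤ T (M + 1)) (hM' : n ≤ (M' + 1) * (M' + 1)) (hf : n ≤ 2 ^ f)
    (hc : allchk K s n M M' k f = true) (c : ℕ → ℤ)
    (hb : ∀ i < n, |c i| + 2 ^ 20 ≤ 2 ^ (s - 1))
    (hv : (2 ^ s : ℤ) ^ n ∣ val (2 ^ s) n - ∑ i ∈ Finset.range n, c i * (2 ^ s) ^ i) :
    ∀ i < n, 27 < i → 0 < c i := by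
  unfold allchk at hc
  rw [Bool.and_eq_true] at hc
  obtain ⟨hc1, hc2⟩ := hc
  have hc1' := Nat.eq_of_beq_eq_true hc1
  have hV := val_cong (k := k) (by omega) (by omega) hK hM hM' hc1'
  obtain ⟨Y, hY⟩ : ∃ Y, Y = (FF K s M M' k + off s 28) &&& (2 ^ K - 1) := ⟨_, rfl⟩
  rw [← hY] at hc2
  have hdig := chk_spec s f n Y hf hc2
  have hx : (2 : ℤ) ^ K = (2 ^ s) ^ n := by rw [hK, pow_mul]
  have hYlt : Y < (2 ^ s) ^ n := by
    rw [hY, ← pow_mul, ← hK]
    exact md_lt _ _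
  have hYc : (Y : ℤ) ≡ (FF K s M M' k : ℤ) + off s 28 [ZMOD 2 ^ K] := by
    have := md_cong K (FF K s M M' k + off s 28)
    rw [← hY, Nat.cast_add] at this
    exact this
  have hYsum : (Y : ℤ) = ∑ i ∈ Finset.range n, ((Y / (2 ^ s) ^ i % 2 ^ s : ℕ) : ℤ) * (2 ^ s) ^ i := by
    have h1 := digits_sum Y (2 ^ s) n
    rw [Nat.mod_eq_of_lt hYlt] at h1
    have h2 : ((∑ i ∈ Finset.range n, (Y / (2 ^ s) ^ i % 2 ^ s) * (2 ^ s) ^ i : ℕ) : ℤ) = (Y : ℤ) :=
      congrArg (fun m : ℕ => (m : ℤ)) h1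
    refine h2.symm.trans ?_
    rw [Nat.cast_sum]
    refine Finset.sum_congr rfl fun i _ => ?_
    rw [Nat.cast_mul, Nat.cast_pow, Nat.cast_pow, Nat.cast_ofNat]
  have hoff : (off s 28 : ℤ) = ∑ i ∈ Finset.range n, (if i < 28 then (2 : ℤ) ^ 20 else 0) *
      (2 ^ s) ^ i := by
    rw [off_eq]
    have : Finset.range 28 = (Finset.range n).filter (fun i => i < 28) := by
      ext i
      simp only [Finset.mem_range, Finset.mem_filter]
      omega
    rw [this, Finset.sum_filter]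
    refine Finset.sum_congr rfl fun i _ => ?_
    split_ifs <;> simp
  have hdiv : (2 ^ s : ℤ) ^ n ∣ ∑ i ∈ Finset.range n,
      ((c i + (if i < 28 then (2 : ℤ) ^ 20 else 0)) - ((Y / (2 ^ s) ^ i % 2 ^ s : ℕ) : ℤ)) *
        (2 ^ s) ^ i := by
    have h1 : ∑ i ∈ Finset.range n,
        ((c i + (if i < 28 then (2 : ℤ) ^ 20 else 0)) - ((Y / (2 ^ s) ^ i % 2 ^ s : ℕ) : ℤ)) *
          (2 ^ s) ^ i = (∑ i ∈ Finset.range n, c i * (2 ^ s) ^ i) + off s 28 - Y := by
      rw [hoff, hYsum, ← Finset.sum_add_distrib, ← Finset.sum_sub_distrib]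
      refine Finset.sum_congr rfl fun i _ => ?_
      ring
    rw [h1]
    have h2 := Int.modEq_iff_dvd.1 hYc
    have h3 := Int.modEq_iff_dvd.1 hV
    rw [hx] at h2 h3
    have h4 : (∑ i ∈ Finset.range n, c i * (2 ^ s : ℤ) ^ i) + off s 28 - Y =
        ((FF K s M M' k : ℤ) + off s 28 - Y) - ((FF K s M M' k : ℤ) - val (2 ^ s) n) -
          (val (2 ^ s) n - ∑ i ∈ Finset.range n, c i * (2 ^ s) ^ i) := by ring
    rw [h4]
    exact dvd_sub (dvd_sub h2 h3) hv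
  have hp : (2 : ℤ) ^ s = 2 ^ (s - 1) * 2 := by
    rw [← pow_succ]
    congr 1
    omega
  have hz := uniq (2 ^ s) (by positivity) n _ (by
    intro i hi
    have h1 := hdig i hi
    have h2 := hb i hi
    rw [pow_mul] at h1
    obtain ⟨h3, h4⟩ := h1
    have h3' : (0 : ℤ) < ((Y / (2 ^ s) ^ i % 2 ^ s : ℕ) : ℤ) := by exact_mod_cast h3
    have h4' : ((Y / (2 ^ s) ^ i % 2 ^ s : ℕ) : ℤ) < 2 ^ (s - 1) := by exact_mod_cast h4
    have h5 := abs_le.1 (le_refl |c i|)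
    rw [hp, abs_lt]
    split_ifs
    · constructor <;> linarith [h5.1, h5.2]
    · have : (0 : ℤ) < 2 ^ 20 := by positivity
      constructor <;> linarith [h5.1, h5.2]) hdiv
  intro i hi h27
  have h1 := hz i hi
  have h2 := (hdig i hi).1
  rw [pow_mul] at h2
  have h3 : (0 : ℤ) < ((Y / (2 ^ s) ^ i % 2 ^ s : ℕ) : ℤ) := by exact_mod_cast h2
  rw [if_neg (by omega)] at h1
  linarith

end Pool.Agent.K1H8.OP
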